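import Pool.Agent.helper31.RLS.Spec

/-! Row rls:MG. -/

set_option autoImplicit false

namespace Pool.Agent.RLS

open Finset

theorem MG_mem {w z : ℝ} (hz : 0 ≤ z) {p : ℕ} :
    p ∈ PP w z ↔ (p : ℝ) ≤ z ∧ p.Prime ∧ w < (p : ℝ) := by
  unfold PP
  rw [Finset.mem_filter, Finset.mem_range, Nat.lt_succ_iff, Nat.le_floor_iff hz]

theorem MG_VV01 (P : Finset ℕ) (hP : ∀ p ∈ P, 1 ≤ p) :
    0 ≤ VV (fun p : ℕ => 1 / (p : ℝ)) P ∧ VV (fun p : ℕ => 1 / (p : ℝ)) P ≤ 1 := by
  have h : ∀ p ∈ P, 0 ≤ 1 - 1 / (p : ℝ) ∧ 1 - 1 / (p : ℝ) ≤ 1 := by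
    intro p hp
    have h1 : (1 : ℝ) ≤ p := by exact_mod_cast hP p hp
    have h2 : 1 / (p : ℝ) ≤ 1 := by
      rw [div_le_one (by linarith)]
      exact h1
    have h3 : 0 ≤ 1 / (p : ℝ) := by positivity
    exact ⟨by linarith, by linarith⟩
  exact ⟨Finset.prod_nonneg fun p hp => (h p hp).1,
    Finset.prod_le_one (fun p hp => (h p hp).1) fun p hp => (h p hp).2⟩

theorem MG (h1 : ME_stmt) : MG_stmt := by
  obtain ⟨C, hC, hM⟩ := h1
  refine ⟨C + 1, by linarith, ?_⟩
  intro w z hw hwz
  have hw0 : 0 < w := by linarith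
  have hz0 : 0 < z := by linarith
  have hlw : 0 < Real.log w := Real.log_pos (by linarith)
  have hC1 : C / Real.log w ≤ (C + 1) / Real.log w :=
    div_le_div_of_nonneg_right (by linarith) hlw.le
  refine ⟨?_, ?_, ?_, ?_⟩
  · intro p hp
    rw [MG_mem hz0.le] at hp
    exact ⟨Real.log_le_log hw0 hp.2.2.le, Real.log_le_log (hw0.trans hp.2.2) hp.1⟩
  · intro p hp
    rw [MG_mem hz0.le] at hp
    have h2 : (2 : ℝ) < p := lt_of_le_of_lt hw hp.2.2
    refine ⟨by positivity, ?_⟩
    rw [div_lt_one (by linarith)]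
    linarith
  · intro t ht1 ht2
    set x : ℝ := Real.exp t with hx
    have hx0 : 0 < x := Real.exp_pos t
    have hlx : Real.log x = t := Real.log_exp t
    have hwx : w ≤ x := by
      rw [← Real.exp_log hw0]
      exact Real.exp_le_exp.mpr ht1
    have hxz : x ≤ z := by
      rw [← Real.exp_log hz0]
      exact Real.exp_le_exp.mpr ht2
    have hM1 := hM w x hw hwx
    rw [hlx] at hM1
    set A : Finset ℕ := (PP w z).filter fun p : ℕ => Real.log p < t with hA
    have hAmem : ∀ p, p ∈ A ↔ p.Prime ∧ w < (p : ℝ) ∧ (p : ℝ) < x := by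
      intro p
      rw [hA, Finset.mem_filter, MG_mem hz0.le]
      constructor
      · rintro ⟨⟨h1, h2, h3⟩, h4⟩
        refine ⟨h2, h3, ?_⟩
        rw [hx, ← Real.log_lt_iff_lt_exp (hw0.trans h3)]
        exact h4
      · rintro ⟨h2, h3, h4⟩
        refine ⟨⟨(h4.le.trans hxz), h2, h3⟩, ?_⟩
        rw [Real.log_lt_iff_lt_exp (hw0.trans h3)]
        exact h4
    have h01 := MG_VV01 A (fun p hp => ((hAmem p).mp hp).1.one_le)
    have hdiff : |VV (fun p : ℕ => 1 / (p : ℝ)) A - VV (fun p : ℕ => 1 / (p : ℝ)) (PP w x)| ≤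
        1 / Real.log w := by
      by_cases hp : ∃ p ∈ PP w x, (p : ℝ) = x
      · obtain ⟨p, hp1, hp2⟩ := hp
        have hpn : p ∉ A := by
          intro h
          exact absurd ((hAmem p).mp h).2.2 (by rw [hp2]; exact lt_irrefl x)
        have hins : PP w x = insert p A := by
          ext q
          rw [Finset.mem_insert, MG_mem hx0.le, hAmem]
          constructor
          · rintro ⟨h1, h2, h3⟩
            rcases h1.lt_or_eq with h | h
            · exact Or.inr ⟨h2, h3, h⟩
            · left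
              rw [← hp2] at h
              exact_mod_cast h
          · rintro (h | ⟨h1, h2, h3⟩)
            · subst h
              exact (MG_mem hx0.le).mp hp1
            · exact ⟨h3.le, h1, h2⟩
        have hprod : VV (fun p : ℕ => 1 / (p : ℝ)) (PP w x) =
            (1 - 1 / (p : ℝ)) * VV (fun p : ℕ => 1 / (p : ℝ)) A := by
          unfold VV
          rw [hins, Finset.prod_insert hpn]
        have hpw : w < (p : ℝ) := ((MG_mem hx0.le).mp hp1).2.2
        have hp0 : (0 : ℝ) < p := hw0.trans hpw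
        have e1 : VV (fun p : ℕ => 1 / (p : ℝ)) A - VV (fun p : ℕ => 1 / (p : ℝ)) (PP w x) =
            1 / (p : ℝ) * VV (fun p : ℕ => 1 / (p : ℝ)) A := by
          rw [hprod]
          ring
        rw [e1, abs_of_nonneg (mul_nonneg (by positivity) h01.1)]
        calc 1 / (p : ℝ) * VV (fun p : ℕ => 1 / (p : ℝ)) A ≤ 1 / (p : ℝ) * 1 :=
              mul_le_mul_of_nonneg_left h01.2 (by positivity)
          _ = 1 / (p : ℝ) := mul_one _
          _ ≤ 1 / Real.log w := by
              apply one_div_le_one_div_of_le hlw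
              have := Real.log_le_sub_one_of_pos hw0
              linarith
      · have heq : PP w x = A := by
          ext q
          rw [MG_mem hx0.le, hAmem]
          constructor
          · rintro ⟨h1, h2, h3⟩
            refine ⟨h2, h3, lt_of_le_of_ne h1 fun h => hp ⟨q, (MG_mem hx0.le).mpr ⟨h1, h2, h3⟩, h⟩⟩
          · rintro ⟨h1, h2, h3⟩
            exact ⟨h3.le, h1, h2⟩
        rw [heq, sub_self, abs_zero]
        positivity
    calc |VV (fun p : ℕ => 1 / (p : ℝ)) A - Real.log w / t|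
        ≤ |VV (fun p : ℕ => 1 / (p : ℝ)) A - VV (fun p : ℕ => 1 / (p : ℝ)) (PP w x)| +
          |VV (fun p : ℕ => 1 / (p : ℝ)) (PP w x) - Real.log w / t| := abs_sub_le _ _ _
      _ ≤ 1 / Real.log w + C / Real.log w := add_le_add hdiff hM1
      _ = (C + 1) / Real.log w := by ring
  · exact (hM w z hw hwz).trans hC1

end Pool.Agent.RLS
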